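import Pool.Agent.Helper9.FU.Super

/-
Row SUP of project MP_a2630c_FU.
-/

open MeasureTheory Set Metric Real Filter Topology
open scoped RealInnerProductSpace ENNReal
open Pool.Agent.Helper16.Buoy (E)
open Pool.Agent.Helper73.LR (CB)
open Pool.Agent.Helper73.SY (CS)
open Pool.Agent.Helper79.SY (WW sl sl_cont inner_e_W sl_inj sl_emb sl_mp norm_sl norm_le_sl abs_le_sl)
open Pool.Agent.Helper73.FU (jj S_jj S_arc S_pwf S_fea S_sup Fea Sup up)

namespace Pool.Agent.Helper9.FU

/-- Supergradients of a concave function at interior points. -/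
theorem supergrad {V : Type*} [NormedAddCommGroup V] [InnerProductSpace ℝ V] [CompleteSpace V]
    {K : Set V} (hc : Convex ℝ K) {G : V → ℝ} (hG : ConcaveOn ℝ K G)
    (hcont : ContinuousOn G (interior K)) {y : V} (hy : y ∈ interior K) :
    ∃ v : V, ∀ x ∈ K, inner ℝ v x + G x ≤ inner ℝ v y + G y := by
  set S : Set (V × ℝ) := {p | p.1 ∈ interior K ∧ p.2 < G p.1} with hS
  have hGi : ConcaveOn ℝ (interior K) G := hG.subset interior_subset hc.interior
  have hSc : Convex ℝ S := hGi.convex_strict_hypograph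
  have hSo : IsOpen S := by
    have h1 : ContinuousOn (fun p : V × ℝ => G p.1 - p.2) (interior K ×ˢ univ) := by
      apply ContinuousOn.sub
      · exact hcont.comp continuousOn_fst (fun p hp => hp.1)
      · exact continuousOn_snd
    have h2 := h1.isOpen_inter_preimage (isOpen_interior.prod isOpen_univ) isOpen_Ioi (t := Ioi 0)
    convert h2 using 1
    ext p
    simp only [hS, mem_inter_iff, mem_prod, mem_univ, and_true, mem_preimage, mem_Ioi, sub_pos]
    rfl
  have hnot : ((y, G y) : V × ℝ) ∉ S := fun h => lt_irrefl _ h.2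
  obtain ⟨f, hf⟩ := geometric_hahn_banach_open_point hSc hSo hnot
  set b : ℝ := f (0, 1) with hb
  have hdec : ∀ (x : V) (t : ℝ), f (x, t) = f (x, 0) + t * b := by
    intro x t
    have h1 : ((x, t) : V × ℝ) = (x, 0) + t • ((0 : V), (1 : ℝ)) := by
      ext <;> simp
    rw [h1, map_add, map_smul, smul_eq_mul]
  have hbpos : 0 < b := by
    have h1 := hf (y, G y - 1) ⟨hy, by show G y - 1 < G y; linarith⟩
    rw [hdec, hdec y (G y)] at h1
    nlinarith
  have hle : ∀ x ∈ interior K, f (x, 0) + G x * b ≤ f (y, 0) + G y * b := by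
    intro x hx
    apply le_of_forall_pos_le_add
    intro ε hε
    have h1 := hf (x, G x - ε / b) ⟨hx, by
      show G x - ε / b < G x
      have : 0 < ε / b := by positivity
      linarith⟩
    rw [hdec, hdec y (G y), sub_mul, div_mul_cancel₀ _ hbpos.ne'] at h1
    linarith
  set L : V →L[ℝ] ℝ := f.comp (ContinuousLinearMap.inl ℝ V ℝ) with hL
  have hLx : ∀ x, L x = f (x, 0) := fun x => rfl
  set a : V := (InnerProductSpace.toDual ℝ V).symm L with ha
  have hax : ∀ x, inner ℝ a x = f (x, 0) := by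
    intro x
    rw [ha, InnerProductSpace.toDual_symm_apply, hLx]
  have hint : ∀ x ∈ interior K, inner ℝ (b⁻¹ • a) x + G x ≤ inner ℝ (b⁻¹ • a) y + G y := by
    intro x hx
    have h1 := hle x hx
    rw [← hax, ← hax] at h1
    rw [real_inner_smul_left, real_inner_smul_left]
    have h2 := mul_le_mul_of_nonneg_left h1 (inv_nonneg.2 hbpos.le)
    have h3 : b⁻¹ * (inner ℝ a x + G x * b) = b⁻¹ * inner ℝ a x + G x := by field_simp
    have h4 : b⁻¹ * (inner ℝ a y + G y * b) = b⁻¹ * inner ℝ a y + G y := by field_simp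
    rw [h3, h4] at h2
    exact h2
  refine ⟨b⁻¹ • a, fun x hx => ?_⟩
  have hz : (1 / 2 : ℝ) • x + (1 / 2 : ℝ) • y ∈ interior K :=
    hc.combo_closure_interior_mem_interior (subset_closure hx) hy (by norm_num) (by norm_num)
      (by norm_num)
  have h1 := hint _ hz
  have h2 := hG.2 hx (interior_subset hy) (show (0 : ℝ) ≤ 1 / 2 by norm_num)
    (show (0 : ℝ) ≤ 1 / 2 by norm_num) (by norm_num)
  simp only [smul_eq_mul] at h2
  rw [inner_add_right, inner_smul_right, inner_smul_right] at h1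
  linarith

variable {n : ℕ} {K : Set (E n)} {e : E n}

theorem add_smul_sl (he : ‖e‖ = 1) (x : E n) (s : ℝ) :
    x + s • e = sl e (pj e x, inner ℝ e x + s) := by
  have h1 := sl_pj he x
  have h2 : (inner ℝ e x : ℝ) • e + (pj e x : E n) = x := h1
  show x + s • e = (inner ℝ e x + s) • e + (pj e x : E n)
  conv_lhs => rw [← h2]
  rw [add_smul]
  abel

theorem up_pos (hK : IsCompact K) (he : ‖e‖ = 1) {x : E n} (hx : x ∈ K) :
    up K e x = hi K e (pj e x) - inner ℝ e x := by
  unfold up
  apply IsGreatest.csSup_eq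
  constructor
  · rw [mem_ofPred_eq, add_smul_sl he]
    have h1 := hi_mem hK he (mem_PR he hx)
    have h2 : (inner ℝ e x + (hi K e (pj e x) - inner ℝ e x) : ℝ) = hi K e (pj e x) := by ring
    rw [h2]
    exact h1
  · intro s hs
    rw [mem_ofPred_eq, add_smul_sl he] at hs
    have h1 := le_hi hK he (s := inner ℝ e x + s) (y := pj e x) hs
    linarith

theorem up_neg (hK : IsCompact K) (he : ‖e‖ = 1) {x : E n} (hx : x ∈ K) :
    up K (-e) x = inner ℝ e x - lo K e (pj e x) := by
  unfold up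
  have hh : ∀ s : ℝ, x + s • (-e) = x + (-s) • e := by
    intro s
    rw [smul_neg, neg_smul]
  apply IsGreatest.csSup_eq
  constructor
  · rw [mem_ofPred_eq, hh, add_smul_sl he]
    have h1 := lo_mem hK he (mem_PR he hx)
    have h2 : (inner ℝ e x + -(inner ℝ e x - lo K e (pj e x)) : ℝ) = lo K e (pj e x) := by ring
    rw [h2]
    exact h1
  · intro s hs
    rw [mem_ofPred_eq, hh, add_smul_sl he] at hs
    have h1 := lo_le hK he (s := inner ℝ e x + -s) (y := pj e x) hs
    linarith

theorem pw_eq (hK : IsCompact K) (he : ‖e‖ = 1) {x : E n} (hx : x ∈ K) :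
    Pool.Agent.Helper73.FU.pw K e x = pw K e x := by
  unfold Pool.Agent.Helper73.FU.pw pw
  rw [up_pos hK he hx, up_neg hK he hx]

theorem hs1 (hf : S_fea) {δ lam : ℝ} (hcs : CS K δ lam) : HS1 K δ lam := by
  intro ρ hρ h0 h1 hd
  have h := hf hcs hρ.aestronglyMeasurable h0 h1 hd
  refine ⟨_, h.1, ?_⟩
  rw [smul_smul, mul_inv_cancel₀ hcs.lpos.ne', one_smul]

/-- Row SUP. -/
theorem s_sup (hjj : S_jj) (harc : S_arc) (hpwf : S_pwf) (hfea : S_fea) : S_sup := by
  intro n K δ lam w hcs hw ρ y hy hρ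
  have hK := hcs.cb.comp
  have hc := hcs.cb.conv
  have hKm := hK.measurableSet
  have hl := hcs.lpos
  obtain ⟨R, hR⟩ := hK.isBounded.exists_norm_le
  have hR0 : 0 ≤ R := (norm_nonneg y).trans (hR y (interior_subset hy))
  obtain ⟨_, _, _, hpc, hpconc, _⟩ := hpwf hcs.cb hw
  obtain ⟨v, hv⟩ := supergrad hc hpconc (hpc.sqrt) hy
  obtain ⟨τ, y0, hy0, h0⟩ := super (HT1_of_arc harc) hK hc hw hcs.dpos hcs.dlt hl
    (hs1 hfea hcs) v
  -- the weak duality
  haveI hfin : IsFiniteMeasure (volume.restrict K) :=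
    ⟨by rw [Measure.restrict_apply_univ]; exact hK.measure_lt_top⟩
  have iρ : IntegrableOn ρ K := by
    apply Integrable.of_bound hρ.meas 1
    refine Eventually.of_forall ?_
    intro x
    rw [Real.norm_eq_abs, abs_of_nonneg (hρ.r0 x)]
    exact hρ.r1 x
  have iρx : IntegrableOn (fun x => ρ x • x) K := by
    apply Integrable.of_bound (hρ.meas.smul measurable_id.aestronglyMeasurable) R
    refine (ae_restrict_iff' hKm).2 (Eventually.of_forall ?_)
    intro x hx
    show ‖ρ x • x‖ ≤ R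
    rw [norm_smul, Real.norm_eq_abs, abs_of_nonneg (hρ.r0 x)]
    have h3 := hρ.r1 x
    have h4 := hρ.r0 x
    have h5 := norm_nonneg x
    have h6 := hR x hx
    nlinarith
  have iv : IntegrableOn (fun x => (inner ℝ v (ρ x • x) : ℝ)) K := iρx.const_inner v
  have jv : ∫ x in K, (inner ℝ v (ρ x • x) : ℝ) = lam * inner ℝ v y := by
    rw [integral_inner iρx, hρ.mom, inner_smul_right]
  have hGm : Measurable (fun x : E n => √(pw K w x)) := (pw_meas hK hw).sqrt
  have iG : IntegrableOn (fun x => √(pw K w x) * sin (π * ρ x)) K := by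
    refine Integrable.of_bound (hGm.aestronglyMeasurable.mul
      (Real.continuous_sin.comp_aestronglyMeasurable (hρ.meas.const_mul π))) (2 * R) ?_
    refine (ae_restrict_iff' hKm).2 (Eventually.of_forall ?_)
    intro x hx
    show ‖√(pw K w x) * sin (π * ρ x)‖ ≤ 2 * R
    rw [Real.norm_eq_abs, abs_mul, abs_of_nonneg (Real.sqrt_nonneg _)]
    have h3 := pw_le hK hw hR hx
    have h4 := Real.abs_sin_le_one (π * ρ x)
    have h5 := abs_nonneg (sin (π * ρ x))
    have h6 := Real.sqrt_nonneg (pw K w x)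
    nlinarith
  have iJ := jj_intK hK hw v τ
  have e1 : ∫ x in K, √(Pool.Agent.Helper73.FU.pw K w x) * sin (π * ρ x) =
      ∫ x in K, √(pw K w x) * sin (π * ρ x) := by
    apply setIntegral_congr_fun hKm
    intro x hx
    show √(Pool.Agent.Helper73.FU.pw K w x) * sin (π * ρ x) = √(pw K w x) * sin (π * ρ x)
    rw [pw_eq hK hw hx]
  rw [e1]
  have k1 : IntegrableOn (fun x => π * jj (√(pw K w x)) (τ - inner ℝ v x)) K := iJ.const_mul π
  have k2 : IntegrableOn (fun x => π * τ * ρ x) K := iρ.const_mul _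
  have k3 : IntegrableOn (fun x => π * (inner ℝ v (ρ x • x) : ℝ)) K := iv.const_mul π
  have k12 : IntegrableOn (fun x => π * jj (√(pw K w x)) (τ - inner ℝ v x) + π * τ * ρ x) K :=
    k1.add k2
  have hmono : ∫ x in K, √(pw K w x) * sin (π * ρ x) ≤
      ∫ x in K, (π * jj (√(pw K w x)) (τ - inner ℝ v x) + π * τ * ρ x -
        π * (inner ℝ v (ρ x • x) : ℝ)) := by
    apply integral_mono iG (k12.sub k3)
    intro x
    have h3 := hjj.2.1 (√(pw K w x)) (τ - inner ℝ v x) (ρ x) (Real.sqrt_nonneg _) (hρ.r0 x)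
      (hρ.r1 x)
    show √(pw K w x) * sin (π * ρ x) ≤ π * jj (√(pw K w x)) (τ - inner ℝ v x) + π * τ * ρ x -
        π * (inner ℝ v (ρ x • x) : ℝ)
    rw [inner_smul_right]
    have h4 := mul_le_mul_of_nonneg_left h3 pi_pos.le
    have h5 : π * (√(pw K w x) * sin (π * ρ x) / π - (τ - inner ℝ v x) * ρ x) =
        √(pw K w x) * sin (π * ρ x) - π * τ * ρ x + π * (ρ x * inner ℝ v x) := by
      have := pi_ne_zero
      field_simp
      ring
    linarith
  rw [integral_sub k12 k3, integral_add k1 k2, integral_const_mul, integral_const_mul,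
    integral_const_mul, hρ.mass, jv] at hmono
  have h7 := hv y0 hy0
  rw [pw_eq hK hw hy0, pw_eq hK hw (interior_subset hy)] at h7
  have h8 := mul_le_mul_of_nonneg_left h7 hl.le
  show ∫ x in K, √(pw K w x) * sin (π * ρ x) ≤
    π * lam * √(Pool.Agent.Helper73.FU.pw K w y)
  rw [pw_eq hK hw (interior_subset hy)]
  have h9 : (∫ x in K, jj (√(pw K w x)) (τ - inner ℝ v x)) + δ * τ - lam * inner ℝ v y ≤
      lam * √(pw K w y) := by linarith
  have h10 := mul_le_mul_of_nonneg_left h9 pi_pos.le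
  calc ∫ x in K, √(pw K w x) * sin (π * ρ x) ≤
      π * (∫ x in K, jj (√(pw K w x)) (τ - inner ℝ v x)) + π * τ * δ -
        π * (lam * inner ℝ v y) := hmono
    _ = π * ((∫ x in K, jj (√(pw K w x)) (τ - inner ℝ v x)) + δ * τ - lam * inner ℝ v y) := by
        ring
    _ ≤ π * (lam * √(pw K w y)) := h10
    _ = π * lam * √(pw K w y) := by ring

end Pool.Agent.Helper9.FU
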