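import Pool.Agent.Helper9.FU.Fib

/-
Top and bottom portions of the fibres (project MP_a2630c_FU, Step 1).
-/

open MeasureTheory Set Metric Real Filter Topology
open scoped RealInnerProductSpace ENNReal
open Pool.Agent.Helper16.Buoy (E)
open Pool.Agent.Helper79.SY (WW sl sl_cont inner_e_W sl_inj sl_emb sl_mp norm_sl norm_le_sl abs_le_sl)

namespace Pool.Agent.Helper9.FU

section OneDim

variable {F : Type*} [NormedAddCommGroup F] [NormedSpace ℝ F]

theorem ite_top {l m h : ℝ} (h1 : l ≤ m) (h2 : m ≤ h) (f : ℝ → F) :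
    ∫ s in l..h, (if m ≤ s then f s else 0) = ∫ s in m..h, f s := by
  rw [intervalIntegral.integral_of_le (h1.trans h2), intervalIntegral.integral_of_le h2]
  have e1 : (fun s : ℝ => if m ≤ s then f s else 0) = (Ici m).indicator f := by
    funext s
    simp [indicator_apply]
  rw [e1, setIntegral_indicator measurableSet_Ici]
  rcases eq_or_lt_of_le h1 with h3 | h3
  · subst h3
    congr 2
    ext s
    simp only [mem_inter_iff, mem_Ioc, mem_Ici]
    constructor
    · rintro ⟨h4, _⟩
      exact h4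
    · intro h4
      exact ⟨h4, h4.1.le⟩
  · have e2 : Ioc l h ∩ Ici m = Icc m h := by
      ext s
      simp only [mem_inter_iff, mem_Ioc, mem_Ici, mem_Icc]
      constructor
      · rintro ⟨h4, h5⟩
        exact ⟨h5, h4.2⟩
      · intro h4
        exact ⟨⟨h3.trans_le h4.1, h4.2⟩, h4.1⟩
    rw [e2, integral_Icc_eq_integral_Ioc]

theorem ite_bot {l m h : ℝ} (h1 : l ≤ m) (h2 : m ≤ h) (f : ℝ → F) :
    ∫ s in l..h, (if s ≤ m then f s else 0) = ∫ s in l..m, f s := by
  rw [intervalIntegral.integral_of_le (h1.trans h2), intervalIntegral.integral_of_le h1]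
  have e1 : (fun s : ℝ => if s ≤ m then f s else 0) = (Iic m).indicator f := by
    funext s
    simp [indicator_apply]
  rw [e1, setIntegral_indicator measurableSet_Iic]
  congr 2
  ext s
  simp only [mem_inter_iff, mem_Ioc, mem_Iic]
  constructor
  · rintro ⟨h4, h5⟩
    exact ⟨h4.1, h5⟩
  · intro h4
    exact ⟨⟨h4.1, h4.2.trans h2⟩, h4.2⟩

end OneDim

variable {n : ℕ} {K : Set (E n)} {e : E n}

theorem hi_bd (hK : IsCompact K) (he : ‖e‖ = 1) {R : ℝ} (hR : ∀ x ∈ K, ‖x‖ ≤ R) {y : WW e}
    (hy : y ∈ PR K e) : |hi K e y| ≤ R :=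
  (abs_le_sl he y _).trans (hR _ (hi_mem hK he hy))

theorem lo_bd (hK : IsCompact K) (he : ‖e‖ = 1) {R : ℝ} (hR : ∀ x ∈ K, ‖x‖ ≤ R) {y : WW e}
    (hy : y ∈ PR K e) : |lo K e y| ≤ R :=
  (abs_le_sl he y _).trans (hR _ (lo_mem hK he hy))

theorem y_bd (he : ‖e‖ = 1) {R : ℝ} (hR : ∀ x ∈ K, ‖x‖ ≤ R) {y : WW e}
    (hy : y ∈ PR K e) : ‖y‖ ≤ R := by
  obtain ⟨s, hs⟩ := hy
  exact (norm_le_sl he y s).trans (hR _ hs)

theorem PR_fin (hK : IsCompact K) (he : ‖e‖ = 1) : volume (PR K e) ≠ ∞ :=
  (PR_compact hK he).measure_lt_top.ne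

theorem bd_int (hK : IsCompact K) (he : ‖e‖ = 1) {F : Type*} [NormedAddCommGroup F]
    {f : WW e → F} (hf : StronglyMeasurable f) {C : ℝ} (hC : ∀ y ∈ PR K e, ‖f y‖ ≤ C) :
    IntegrableOn f (PR K e) := by
  apply Measure.integrableOn_of_bounded (PR_fin hK he) hf.aestronglyMeasurable (M := C)
  exact (ae_restrict_iff' (PR_compact hK he).measurableSet).2 (Eventually.of_forall hC)

/-- The hypothesis (S1). -/
def HS1 (K : Set (E n)) (δ lam : ℝ) : Prop :=
  ∀ ρ : E n → ℝ, Measurable ρ → (∀ x, 0 ≤ ρ x) → (∀ x, ρ x ≤ 1) → ∫ x in K, ρ x = δ →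
    ∃ z ∈ K, ∫ x in K, ρ x • x = lam • z

/-- Computation of the moments of a density which is an interval on every fibre. -/
theorem moments (hK : IsCompact K) (hc : Convex ℝ K) (he : ‖e‖ = 1) {δ lam : ℝ}
    (hS : HS1 K δ lam) {ρ : E n → ℝ} (hρ : Measurable ρ) (h0 : ∀ x, 0 ≤ ρ x) (h1 : ∀ x, ρ x ≤ 1)
    {a g : WW e → ℝ}
    (hint : ∀ y ∈ PR K e, ∫ s in (lo K e y)..(hi K e y), ρ (sl e (y, s)) = a y)
    (hmom : ∀ y ∈ PR K e, ∫ s in (lo K e y)..(hi K e y), ρ (sl e (y, s)) * s = g y)
    (hδ : ∫ y in PR K e, a y = δ) :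
    ∃ z ∈ K, ∫ y in PR K e, a y • y = lam • pj e z ∧
      ∫ y in PR K e, g y = lam * inner ℝ e z := by
  obtain ⟨R, hR⟩ := hK.isBounded.exists_norm_le
  have hfin : volume K ≠ ∞ := hK.measure_lt_top.ne
  have hbd : ∀ x, ‖ρ x‖ ≤ 1 := by
    intro x
    rw [Real.norm_eq_abs, abs_of_nonneg (h0 x)]
    exact h1 x
  have hPm := (PR_compact (K := K) hK he).measurableSet
  have i1 : IntegrableOn ρ K := by
    apply Measure.integrableOn_of_bounded hfin hρ.aestronglyMeasurable (M := 1)
    exact Eventually.of_forall hbd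
  have i2 : IntegrableOn (fun x => ρ x • x) K := by
    apply Measure.integrableOn_of_bounded hfin
      (hρ.smul measurable_id).aestronglyMeasurable (M := R)
    refine (ae_restrict_iff' hK.measurableSet).2 (Eventually.of_forall ?_)
    intro x hx
    show ‖ρ x • x‖ ≤ R
    rw [norm_smul]
    have := hR x hx
    have h3 := hbd x
    have h4 := norm_nonneg (ρ x)
    have h5 := norm_nonneg x
    nlinarith
  have e1 : ∫ x in K, ρ x = δ := by
    rw [fub hK hc he i1, ← hδ]
    exact setIntegral_congr_fun hPm hint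
  obtain ⟨z, hz, hzz⟩ := hS ρ hρ h0 h1 e1
  refine ⟨z, hz, ?_, ?_⟩
  · have h2 := congrArg (pj e) hzz
    rw [map_smul] at h2
    rw [← h2, ← ContinuousLinearMap.integral_comp_comm _ i2,
      fub hK hc he ((pj e).integrable_comp i2)]
    apply setIntegral_congr_fun hPm
    intro y hy
    show a y • y = ∫ s in (lo K e y)..(hi K e y), pj e (ρ (sl e (y, s)) • sl e (y, s))
    simp only [map_smul, pj_sl]
    rw [intervalIntegral.integral_smul_const, hint y hy]
  · have h2 := congrArg (fun v => (inner ℝ e v : ℝ)) hzz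
    simp only [inner_smul_right] at h2
    have h3 : (inner ℝ e (∫ x in K, ρ x • x) : ℝ) = ∫ x in K, inner ℝ e (ρ x • x) := by
      rw [integral_inner i2]
    rw [h3] at h2
    have i3 : IntegrableOn (fun x => (inner ℝ e (ρ x • x) : ℝ)) K := i2.const_inner e
    rw [← h2, fub hK hc he i3]
    apply setIntegral_congr_fun hPm
    intro y hy
    show g y = ∫ s in (lo K e y)..(hi K e y), inner ℝ e (ρ (sl e (y, s)) • sl e (y, s))
    rw [← hmom y hy]
    simp only [inner_smul_right, inner_sl he]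

/-- The core of the shadow system argument: centroids of top and bottom portions. -/
theorem core (hK : IsCompact K) (hc : Convex ℝ K) (he : ‖e‖ = 1) {δ lam : ℝ} (hl : 0 < lam)
    (hS : HS1 K δ lam) {a : WW e → ℝ} (ha : Measurable a) (h0 : ∀ y, 0 ≤ a y)
    (h1 : ∀ y, a y ≤ hi K e y - lo K e y) (hδ : ∫ y in PR K e, a y = δ) :
    ∃ p ∈ PR K e, ∫ y in PR K e, a y • y = lam • p ∧
      ∫ y in PR K e, (a y * hi K e y - a y ^ 2 / 2) ≤ lam * hi K e p ∧
      lam * lo K e p ≤ ∫ y in PR K e, (a y * lo K e y + a y ^ 2 / 2) := by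
  have hpm : Measurable (pj e : E n → WW e) := (pj e).continuous.measurable
  have him : Measurable (fun x : E n => (inner ℝ e x : ℝ)) :=
    (continuous_const.inner continuous_id).measurable
  have hhi := hi_meas (K := K) hK he
  have hlo := lo_meas (K := K) hK he
  -- top
  have htop := moments (K := K) hK hc he hS
    (ρ := fun x => if hi K e (pj e x) - a (pj e x) ≤ inner ℝ e x then 1 else 0)
    (Measurable.ite (measurableSet_le ((hhi.comp hpm).sub (ha.comp hpm)) him)
      measurable_const measurable_const)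
    (fun x => by split_ifs <;> norm_num) (fun x => by split_ifs <;> norm_num)
    (a := a) (g := fun y => a y * hi K e y - a y ^ 2 / 2)
    (fun y hy => by
      simp only [pj_sl, inner_sl he]
      rw [ite_top (by linarith [h1 y]) (by linarith [h0 y]) (fun _ => (1 : ℝ))]
      simp)
    (fun y hy => by
      simp only [pj_sl, inner_sl he, ite_mul, one_mul, zero_mul]
      rw [ite_top (by linarith [h1 y]) (by linarith [h0 y]) (fun s => s)]
      rw [integral_id]
      ring)
    hδ
  have hbot := moments (K := K) hK hc he hS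
    (ρ := fun x => if inner ℝ e x ≤ lo K e (pj e x) + a (pj e x) then 1 else 0)
    (Measurable.ite (measurableSet_le him ((hlo.comp hpm).add (ha.comp hpm)))
      measurable_const measurable_const)
    (fun x => by split_ifs <;> norm_num) (fun x => by split_ifs <;> norm_num)
    (a := a) (g := fun y => a y * lo K e y + a y ^ 2 / 2)
    (fun y hy => by
      simp only [pj_sl, inner_sl he]
      rw [ite_bot (by linarith [h0 y]) (by linarith [h1 y]) (fun _ => (1 : ℝ))]
      simp)
    (fun y hy => by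
      simp only [pj_sl, inner_sl he, ite_mul, one_mul, zero_mul]
      rw [ite_bot (by linarith [h0 y]) (by linarith [h1 y]) (fun s => s)]
      rw [integral_id]
      ring)
    hδ
  obtain ⟨z, hz, hz1, hz2⟩ := htop
  obtain ⟨z', hz', hz1', hz2'⟩ := hbot
  have hpp : pj e z = pj e z' := by
    have h3 : lam • pj e z = lam • pj e z' := by rw [← hz1, ← hz1']
    exact smul_right_injective _ hl.ne' h3
  refine ⟨pj e z, mem_PR he hz, hz1, ?_, ?_⟩
  · rw [hz2]
    exact mul_le_mul_of_nonneg_left (le_hi hK he ((fb_eq he).2 hz)) hl.le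
  · rw [hz2', hpp]
    exact mul_le_mul_of_nonneg_left (lo_le hK he ((fb_eq he).2 hz')) hl.le

end Pool.Agent.Helper9.FU
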