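import Pool.Agent.Helper79.SY.Slice

/-
Fibres of a compact convex set in the direction of a unit vector (project MP_a2630c_FU, Step 1).
-/

open MeasureTheory Set Metric Real Filter Topology
open scoped RealInnerProductSpace ENNReal
open Pool.Agent.Helper16.Buoy (E)
open Pool.Agent.Helper79.SY (WW sl sl_cont inner_e_W sl_inj sl_emb sl_mp norm_sl norm_le_sl abs_le_sl)

namespace Pool.Agent.Helper9.FU

variable {n : ℕ} {K : Set (E n)} {e : E n}

/-- Orthogonal projection to the hyperplane. -/
noncomputable def pj (e : E n) : E n →L[ℝ] WW e := (WW e).orthogonalProjectionOnto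

/-- The fibre over `y`. -/
def fb (K : Set (E n)) (e : E n) (y : WW e) : Set ℝ := {s | sl e (y, s) ∈ K}

/-- The projection of `K`. -/
def PR (K : Set (E n)) (e : E n) : Set (WW e) := {y | (fb K e y).Nonempty}

/-- Upper end of the fibre. -/
noncomputable def hi (K : Set (E n)) (e : E n) (y : WW e) : ℝ := sSup (fb K e y)

/-- Lower end of the fibre. -/
noncomputable def lo (K : Set (E n)) (e : E n) (y : WW e) : ℝ := sInf (fb K e y)

theorem pj_sl (y : WW e) (s : ℝ) : pj e (sl e (y, s)) = y := by
  unfold pj sl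
  rw [map_add, map_smul]
  have h1 : (WW e).orthogonalProjectionOnto e = 0 := by
    apply Submodule.orthogonalProjectionOnto_eq_zero_iff.2
    rw [Submodule.orthogonal_orthogonal]
    exact Submodule.mem_span_singleton_self e
  have h2 : (WW e).orthogonalProjectionOnto (y : E n) = y :=
    Submodule.orthogonalProjectionOnto_mem_subspace_eq_self y
  rw [h1, smul_zero, zero_add, h2]

theorem inner_sl (he : ‖e‖ = 1) (y : WW e) (s : ℝ) : inner ℝ e (sl e (y, s)) = s := by
  show inner ℝ e (s • e + (y : E n)) = s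
  rw [inner_add_right, inner_smul_right, real_inner_self_eq_norm_sq, he, inner_e_W]
  simp

theorem sl_pj (he : ‖e‖ = 1) (x : E n) : sl e (pj e x, inner ℝ e x) = x := by
  have h1 : ∃ q, sl e q = x := by
    have h2 : x - (inner ℝ e x : ℝ) • e ∈ WW e := by
      rw [Submodule.mem_orthogonal_singleton_iff_inner_right, inner_sub_right, inner_smul_right,
        real_inner_self_eq_norm_sq, he]
      simp
    refine ⟨(⟨_, h2⟩, inner ℝ e x), ?_⟩
    show (inner ℝ e x : ℝ) • e + (x - (inner ℝ e x : ℝ) • e) = x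
    abel
  obtain ⟨⟨y, s⟩, rfl⟩ := h1
  rw [pj_sl, inner_sl he]

theorem fb_eq (he : ‖e‖ = 1) {x : E n} : inner ℝ e x ∈ fb K e (pj e x) ↔ x ∈ K := by
  unfold fb
  rw [mem_setOf_eq, sl_pj he]

theorem mem_PR (he : ‖e‖ = 1) {x : E n} (hx : x ∈ K) : pj e x ∈ PR K e :=
  ⟨_, (fb_eq he).2 hx⟩

theorem fb_compact (hK : IsCompact K) (he : ‖e‖ = 1) (y : WW e) : IsCompact (fb K e y) := by
  have hc : Continuous fun s : ℝ => sl e (y, s) := sl_cont.comp (by fun_prop)
  obtain ⟨R, hR⟩ := hK.isBounded.exists_norm_le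
  apply isCompact_of_isClosed_isBounded (hK.isClosed.preimage hc)
  apply (isBounded_iff_forall_norm_le).2
  refine ⟨R, fun s hs => ?_⟩
  exact (abs_le_sl he y s).trans (hR _ hs)

theorem fb_conv (hK : Convex ℝ K) (y : WW e) : Convex ℝ (fb K e y) := by
  intro s hs t ht a b ha hb hab
  have h1 := hK hs ht ha hb hab
  have h2 : a • sl e (y, s) + b • sl e (y, t) = sl e (y, a • s + b • t) := by
    show a • (s • e + (y : E n)) + b • (t • e + (y : E n)) = (a • s + b • t) • e + (y : E n)
    have h3 : (y : E n) = a • (y : E n) + b • (y : E n) := by rw [← add_smul, hab, one_smul]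
    conv_rhs => rw [h3]
    simp only [smul_add, smul_smul, smul_eq_mul, add_smul]
    abel
  rw [h2] at h1
  exact h1

theorem fb_Icc (hK : IsCompact K) (hc : Convex ℝ K) (he : ‖e‖ = 1) {y : WW e} (hy : y ∈ PR K e) :
    fb K e y = Icc (lo K e y) (hi K e y) := by
  have h1 := fb_compact hK he y
  have h2 := (fb_conv (e := e) hc y).isPreconnected
  have h3 : IsConnected (fb K e y) := ⟨hy, h2⟩
  exact eq_Icc_of_connected_compact h3 h1

theorem lo_le_hi (hK : IsCompact K) (he : ‖e‖ = 1) (y : WW e) : lo K e y ≤ hi K e y := by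
  by_cases hy : y ∈ PR K e
  · obtain ⟨s, hs⟩ := hy
    exact (csInf_le (fb_compact hK he y).bddBelow hs).trans
      (le_csSup (fb_compact hK he y).bddAbove hs)
  · have : fb K e y = ∅ := not_nonempty_iff_eq_empty.1 hy
    unfold lo hi
    rw [this]
    simp

theorem lo_of_not {y : WW e} (hy : y ∉ PR K e) : lo K e y = 0 := by
  have : fb K e y = ∅ := not_nonempty_iff_eq_empty.1 hy
  unfold lo
  rw [this]
  simp

theorem hi_of_not {y : WW e} (hy : y ∉ PR K e) : hi K e y = 0 := by
  have : fb K e y = ∅ := not_nonempty_iff_eq_empty.1 hy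
  unfold hi
  rw [this]
  simp

theorem le_hi (hK : IsCompact K) (he : ‖e‖ = 1) {y : WW e} {s : ℝ} (hs : s ∈ fb K e y) :
    s ≤ hi K e y := le_csSup (fb_compact hK he y).bddAbove hs

theorem lo_le (hK : IsCompact K) (he : ‖e‖ = 1) {y : WW e} {s : ℝ} (hs : s ∈ fb K e y) :
    lo K e y ≤ s := csInf_le (fb_compact hK he y).bddBelow hs

theorem hi_mem (hK : IsCompact K) (he : ‖e‖ = 1) {y : WW e} (hy : y ∈ PR K e) :
    hi K e y ∈ fb K e y := (fb_compact hK he y).sSup_mem hy

theorem lo_mem (hK : IsCompact K) (he : ‖e‖ = 1) {y : WW e} (hy : y ∈ PR K e) :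
    lo K e y ∈ fb K e y := (fb_compact hK he y).sInf_mem hy

theorem PR_eq (he : ‖e‖ = 1) : PR K e = pj e '' K := by
  ext y
  constructor
  · rintro ⟨s, hs⟩
    exact ⟨_, hs, pj_sl y s⟩
  · rintro ⟨x, hx, rfl⟩
    exact mem_PR he hx

theorem PR_compact (hK : IsCompact K) (he : ‖e‖ = 1) : IsCompact (PR K e) := by
  rw [PR_eq he]
  exact hK.image (pj e).continuous

theorem hi_meas (hK : IsCompact K) (he : ‖e‖ = 1) : Measurable (hi K e) := by
  apply measurable_of_Ici
  intro c
  have h1 : hi K e ⁻¹' Ici c = pj e '' (K ∩ {x | c ≤ inner ℝ e x}) ∪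
      ((PR K e)ᶜ ∩ {_y : WW e | c ≤ 0}) := by
    ext y
    simp only [mem_preimage, mem_Ici, mem_union, mem_inter_iff, mem_compl_iff, mem_setOf_eq,
      mem_image]
    constructor
    · intro h
      by_cases hy : y ∈ PR K e
      · left
        exact ⟨_, ⟨hi_mem hK he hy, by rw [inner_sl he]; exact h⟩, pj_sl y _⟩
      · right
        rw [hi_of_not hy] at h
        exact ⟨hy, h⟩
    · rintro (⟨x, ⟨hx, hc⟩, rfl⟩ | ⟨hy, hc⟩)
      · exact hc.trans (le_hi hK he ((fb_eq he).2 hx))
      · rw [hi_of_not hy]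
        exact hc
  rw [h1]
  apply MeasurableSet.union
  · apply IsCompact.measurableSet
    apply IsCompact.image _ (pj e).continuous
    apply hK.inter_right
    exact isClosed_le continuous_const (continuous_const.inner continuous_id)
  · exact ((PR_compact hK he).measurableSet.compl).inter (by measurability)

theorem lo_meas (hK : IsCompact K) (he : ‖e‖ = 1) : Measurable (lo K e) := by
  apply measurable_of_Iic
  intro c
  have h1 : lo K e ⁻¹' Iic c = pj e '' (K ∩ {x | inner ℝ e x ≤ c}) ∪
      ((PR K e)ᶜ ∩ {_y : WW e | 0 ≤ c}) := by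
    ext y
    simp only [mem_preimage, mem_Iic, mem_union, mem_inter_iff, mem_compl_iff, mem_setOf_eq,
      mem_image]
    constructor
    · intro h
      by_cases hy : y ∈ PR K e
      · left
        exact ⟨_, ⟨lo_mem hK he hy, by rw [inner_sl he]; exact h⟩, pj_sl y _⟩
      · right
        rw [lo_of_not hy] at h
        exact ⟨hy, h⟩
    · rintro (⟨x, ⟨hx, hc⟩, rfl⟩ | ⟨hy, hc⟩)
      · exact (lo_le hK he ((fb_eq he).2 hx)).trans hc
      · rw [lo_of_not hy]
        exact hc
  rw [h1]
  apply MeasurableSet.union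
  · apply IsCompact.measurableSet
    apply IsCompact.image _ (pj e).continuous
    apply hK.inter_right
    exact isClosed_le (continuous_const.inner continuous_id) continuous_const
  · exact ((PR_compact hK he).measurableSet.compl).inter (by measurability)

/-- Fubini in the direction `e`. -/
theorem fub (hK : IsCompact K) (hc : Convex ℝ K) (he : ‖e‖ = 1) {F : Type*}
    [NormedAddCommGroup F] [NormedSpace ℝ F] [CompleteSpace F] {φ : E n → F}
    (hφ : IntegrableOn φ K) :
    ∫ x in K, φ x = ∫ y in PR K e, ∫ s in (lo K e y)..(hi K e y), φ (sl e (y, s)) := by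
  have h1 : Integrable (K.indicator φ) := (integrable_indicator_iff hK.measurableSet).2 hφ
  have h2 : Integrable (fun q => K.indicator φ (sl e q))
      ((volume : Measure (WW e)).prod (volume : Measure ℝ)) :=
    (sl_mp he).integrable_comp_of_integrable h1
  rw [← integral_indicator hK.measurableSet, ← (sl_mp he).integral_comp (sl_emb he),
    integral_prod _ h2, ← integral_indicator (PR_compact hK he).measurableSet]
  congr 1
  funext y
  by_cases hy : y ∈ PR K e
  · rw [indicator_of_mem hy, intervalIntegral.integral_of_le (lo_le_hi hK he y),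
      ← integral_Icc_eq_integral_Ioc, ← fb_Icc hK hc he hy,
      ← integral_indicator (fb_compact hK he y).measurableSet]
    rfl
  · rw [indicator_of_notMem hy]
    have h3 : ∀ s : ℝ, K.indicator φ (sl e (y, s)) = 0 := by
      intro s
      apply indicator_of_notMem
      intro h
      exact hy ⟨s, h⟩
    simp only [h3, integral_zero]

end Pool.Agent.Helper9.FU
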