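import Pool.Agent.Helper9.FU.Core
import Pool.Agent.Helper94.FU.J
import Pool.Agent.Helper73.FU.Stmts

/-
The power function of a solution is a supersolution (project MP_a2630c_FU, Step 1).
-/

open MeasureTheory Set Metric Real Filter Topology
open scoped RealInnerProductSpace ENNReal
open Pool.Agent.Helper16.Buoy (E)
open Pool.Agent.Helper79.SY (WW sl sl_cont inner_e_W sl_inj sl_emb sl_mp norm_sl norm_le_sl abs_le_sl)
open Pool.Agent.Helper73.FU (jj)

namespace Pool.Agent.Helper9.FU

theorem jj_eq94 (g c : ℝ) : jj g c = Pool.Agent.Helper94.FU.jj g c := by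
  unfold jj Pool.Agent.Helper94.FU.jj
  rw [one_div]

theorem jj_lip (g g' c c' : ℝ) : |jj g c - jj g' c'| ≤ |g - g'| + |c - c'| := by
  rw [jj_eq94, jj_eq94]
  exact Pool.Agent.Helper94.FU.jj_lip g g' c c'

theorem jj_zero (c : ℝ) : jj 0 c = max (-c) 0 := by
  rw [jj_eq94]
  exact Pool.Agent.Helper94.FU.jj_zero c

theorem jj_smul {s : ℝ} (hs : 0 ≤ s) (g c : ℝ) : jj (s * g) (s * c) = s * jj g c := by
  rw [jj_eq94, jj_eq94]
  exact Pool.Agent.Helper94.FU.jj_smul hs g c

theorem jj_continuous : Continuous (fun p : ℝ × ℝ => jj p.1 p.2) := by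
  simp only [jj_eq94]
  exact Pool.Agent.Helper94.FU.jj_continuous

/-- The identity (T1). -/
def HT1 : Prop := ∀ r : ℝ, 0 < r → ∀ α c : ℝ,
  ∫ η in (-r)..r, jj (√(r ^ 2 - η ^ 2)) (c - α * η) =
    ∫ η in (-r)..r, max (√(1 + α ^ 2) * η - c) 0

theorem HT1_of_arc (h : Pool.Agent.Helper73.FU.S_arc) : HT1 := by
  intro r hr α c
  set β : ℝ := √(1 + α ^ 2) with hβ
  have hβ0 : 0 < β := Real.sqrt_pos.2 (by positivity)
  have hβ2 : β ^ 2 = 1 + α ^ 2 := Real.sq_sqrt (by positivity)
  have h1 := h r (α / β) β⁻¹ (c / β) hr.le (inv_nonneg.2 hβ0.le) (by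
    have : (α / β) ^ 2 + β⁻¹ ^ 2 = (1 + α ^ 2) / β ^ 2 := by
      field_simp
      ring
    rw [this, ← hβ2]
    field_simp)
  have e1 : ∀ η : ℝ, jj (√(r ^ 2 - η ^ 2)) (c - α * η) =
      β * jj (β⁻¹ * √(r ^ 2 - η ^ 2)) (c / β - α / β * η) := by
    intro η
    rw [← jj_smul hβ0.le]
    congr 1
    · field_simp
    · field_simp
  have e2 : ∀ η : ℝ, max (β * η - c) 0 = β * max (η - c / β) 0 := by
    intro η
    rw [mul_max_of_nonneg _ _ hβ0.le, mul_zero]
    congr 1
    field_simp
  simp only [e1, e2]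
  rw [intervalIntegral.integral_const_mul, intervalIntegral.integral_const_mul, h1]

theorem T1_fib (hT : HT1) {l h : ℝ} (hlh : l ≤ h) (α c : ℝ) :
    ∫ s in l..h, jj (√((h - s) * (s - l))) (c - α * s) =
      ∫ s in l..h, max (√(1 + α ^ 2) * (s - (l + h) / 2) + α * ((l + h) / 2) - c) 0 := by
  rcases eq_or_lt_of_le hlh with h1 | h1
  · subst h1
    simp
  · have hr : 0 < (h - l) / 2 := by linarith
    have e1 : l = -((h - l) / 2) + (l + h) / 2 := by ring
    have e2 : h = (h - l) / 2 + (l + h) / 2 := by ring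
    have h2 := intervalIntegral.integral_comp_add_right (a := -((h - l) / 2)) (b := (h - l) / 2)
      (fun s => jj (√((h - s) * (s - l))) (c - α * s)) ((l + h) / 2)
    have h3 := intervalIntegral.integral_comp_add_right (a := -((h - l) / 2)) (b := (h - l) / 2)
      (fun s => max (√(1 + α ^ 2) * (s - (l + h) / 2) + α * ((l + h) / 2) - c) 0) ((l + h) / 2)
    rw [← e1, ← e2] at h2 h3
    rw [← h2, ← h3]
    have h4 := hT ((h - l) / 2) hr α (c - α * ((l + h) / 2))
    have e3 : ∀ η : ℝ, jj (√((h - (η + (l + h) / 2)) * (η + (l + h) / 2 - l)))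
        (c - α * (η + (l + h) / 2)) =
        jj (√(((h - l) / 2) ^ 2 - η ^ 2)) (c - α * ((l + h) / 2) - α * η) := by
      intro η
      congr 1
      · congr 1
        ring
      · ring
    have e4 : ∀ η : ℝ, max (√(1 + α ^ 2) * (η + (l + h) / 2 - (l + h) / 2) +
        α * ((l + h) / 2) - c) 0 = max (√(1 + α ^ 2) * η - (c - α * ((l + h) / 2))) 0 := by
      intro η
      congr 1
      ring
    simp only [e3, e4]
    exact h4

/-- Length of the part of `[l, h]` above `κ`. -/
noncomputable def lev (l h κ : ℝ) : ℝ := max 0 (min (h - l) (h - κ))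

theorem lev_nonneg (l h κ : ℝ) : 0 ≤ lev l h κ := le_max_left _ _

theorem lev_le {l h : ℝ} (hlh : l ≤ h) (κ : ℝ) : lev l h κ ≤ h - l :=
  max_le (by linarith) (min_le_left _ _)

theorem lev_int {l h : ℝ} (hlh : l ≤ h) {β : ℝ} (hβ : 0 < β) (κ : ℝ) :
    ∫ s in l..h, max (β * (s - κ)) 0 =
      β * (lev l h κ * h - lev l h κ ^ 2 / 2 - lev l h κ * κ) := by
  have hint : ∀ a b : ℝ, ∫ s in a..b, β * (s - κ) = β * ((b ^ 2 - a ^ 2) / 2 - κ * (b - a)) := by
    intro a b
    have k1 : IntervalIntegrable (fun s : ℝ => s) volume a b := continuous_id.intervalIntegrable _ _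
    have k2 : IntervalIntegrable (fun _ : ℝ => κ) volume a b := intervalIntegrable_const
    rw [intervalIntegral.integral_const_mul, intervalIntegral.integral_sub k1 k2, integral_id,
      intervalIntegral.integral_const, smul_eq_mul]
    ring
  rcases le_total κ l with h1 | h1
  · have e1 : lev l h κ = h - l := by
      unfold lev
      rw [min_eq_left (by linarith), max_eq_right (by linarith)]
    rw [e1]
    have e2 : ∫ s in l..h, max (β * (s - κ)) 0 = ∫ s in l..h, β * (s - κ) := by
      apply intervalIntegral.integral_congr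
      intro s hs
      rw [uIcc_of_le hlh] at hs
      show max (β * (s - κ)) 0 = β * (s - κ)
      apply max_eq_left
      have : 0 ≤ s - κ := by linarith [hs.1]
      positivity
    rw [e2, hint]
    ring
  · rcases le_total h κ with h2 | h2
    · have e1 : lev l h κ = 0 := by
        unfold lev
        rw [min_eq_right (by linarith), max_eq_left (by linarith)]
      rw [e1]
      have e2 : ∫ s in l..h, max (β * (s - κ)) 0 = ∫ s in l..h, (0 : ℝ) := by
        apply intervalIntegral.integral_congr
        intro s hs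
        rw [uIcc_of_le hlh] at hs
        show max (β * (s - κ)) 0 = 0
        apply max_eq_right
        have : s - κ ≤ 0 := by linarith [hs.2]
        nlinarith
      rw [e2]
      simp
    · have e1 : lev l h κ = h - κ := by
        unfold lev
        rw [min_eq_right (by linarith), max_eq_right (by linarith)]
      rw [e1]
      have hcont : Continuous (fun s : ℝ => max (β * (s - κ)) 0) := by fun_prop
      rw [← intervalIntegral.integral_add_adjacent_intervals (b := κ)
        (hcont.intervalIntegrable _ _) (hcont.intervalIntegrable _ _)]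
      have e2 : ∫ s in l..κ, max (β * (s - κ)) 0 = ∫ s in l..κ, (0 : ℝ) := by
        apply intervalIntegral.integral_congr
        intro s hs
        rw [uIcc_of_le h1] at hs
        show max (β * (s - κ)) 0 = 0
        apply max_eq_right
        have : s - κ ≤ 0 := by linarith [hs.2]
        nlinarith
      have e3 : ∫ s in κ..h, max (β * (s - κ)) 0 = ∫ s in κ..h, β * (s - κ) := by
        apply intervalIntegral.integral_congr
        intro s hs
        rw [uIcc_of_le h2] at hs
        show max (β * (s - κ)) 0 = β * (s - κ)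
        apply max_eq_left
        have : 0 ≤ s - κ := by linarith [hs.1]
        positivity
      rw [e2, e3, hint, intervalIntegral.integral_zero]
      ring

variable {n : ℕ} {K : Set (E n)} {e : E n}

/-- The power of the point `x` with respect to `K` in the direction `e`: the product of the two
distances to the boundary. -/
noncomputable def pw (K : Set (E n)) (e x : E n) : ℝ :=
  (hi K e (pj e x) - inner ℝ e x) * (inner ℝ e x - lo K e (pj e x))

theorem pw_sl (he : ‖e‖ = 1) (y : WW e) (s : ℝ) :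
    pw K e (sl e (y, s)) = (hi K e y - s) * (s - lo K e y) := by
  unfold pw
  rw [pj_sl, inner_sl he]

theorem pw_meas (hK : IsCompact K) (he : ‖e‖ = 1) : Measurable (pw K e) := by
  have hpm : Measurable (pj e : E n → WW e) := (pj e).continuous.measurable
  have him : Measurable (fun x : E n => (inner ℝ e x : ℝ)) :=
    (continuous_const.inner continuous_id).measurable
  exact (((hi_meas hK he).comp hpm).sub him).mul (him.sub ((lo_meas hK he).comp hpm))

theorem pw_nonneg (hK : IsCompact K) (he : ‖e‖ = 1) {x : E n} (hx : x ∈ K) : 0 ≤ pw K e x := by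
  have h1 := (fb_eq he).2 hx
  exact mul_nonneg (sub_nonneg.2 (le_hi hK he h1)) (sub_nonneg.2 (lo_le hK he h1))

theorem pw_le (hK : IsCompact K) (he : ‖e‖ = 1) {R : ℝ} (hR : ∀ x ∈ K, ‖x‖ ≤ R) {x : E n}
    (hx : x ∈ K) : √(pw K e x) ≤ 2 * R := by
  have h1 := (fb_eq he).2 hx
  have h2 := le_hi hK he h1
  have h3 := lo_le hK he h1
  have h4 := abs_le.1 (hi_bd hK he hR (mem_PR he hx))
  have h5 := abs_le.1 (lo_bd hK he hR (mem_PR he hx))
  rw [show (2 * R : ℝ) = √((2 * R) ^ 2) by rw [Real.sqrt_sq]; linarith [(norm_nonneg x).trans (hR x hx)]]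
  apply Real.sqrt_le_sqrt
  unfold pw
  nlinarith

theorem jj_bd (g c : ℝ) : |jj g c| ≤ |g| + |c| := by
  have h := jj_lip g 0 c 0
  rw [jj_zero] at h
  simpa using h

theorem jj_intK (hK : IsCompact K) (he : ‖e‖ = 1) (v : E n) (τ : ℝ) :
    IntegrableOn (fun x => jj (√(pw K e x)) (τ - inner ℝ v x)) K := by
  obtain ⟨R, hR⟩ := hK.isBounded.exists_norm_le
  have hm : Measurable (fun x => jj (√(pw K e x)) (τ - inner ℝ v x)) := by
    have h1 : Measurable (fun x : E n => ((√(pw K e x), τ - inner ℝ v x) : ℝ × ℝ)) := by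
      apply Measurable.prodMk
      · exact (pw_meas hK he).sqrt
      · exact (continuous_const.sub (continuous_const.inner continuous_id)).measurable
    exact jj_continuous.measurable.comp h1
  apply Measure.integrableOn_of_bounded hK.measure_lt_top.ne hm.aestronglyMeasurable
    (M := 2 * R + (|τ| + ‖v‖ * R))
  refine (ae_restrict_iff' hK.measurableSet).2 (Eventually.of_forall ?_)
  intro x hx
  rw [Real.norm_eq_abs]
  refine (jj_bd _ _).trans ?_
  have h1 := pw_le hK he hR hx
  have h2 : |τ - inner ℝ v x| ≤ |τ| + ‖v‖ * R := by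
    refine (abs_sub _ _).trans ?_
    have h3 := abs_real_inner_le_norm v x
    have h4 := mul_le_mul_of_nonneg_left (hR x hx) (norm_nonneg v)
    linarith
  rw [abs_of_nonneg (Real.sqrt_nonneg _)]
  linarith

/-- Threshold on the fibre over `y`. -/
noncomputable def kap (K : Set (E n)) (e v : E n) (τ : ℝ) (y : WW e) : ℝ :=
  (lo K e y + hi K e y) / 2 + (τ - inner ℝ v (y : E n) -
    inner ℝ v e * ((lo K e y + hi K e y) / 2)) / √(1 + (inner ℝ v e) ^ 2)

/-- Length of the portion of the fibre. -/
noncomputable def aa (K : Set (E n)) (e v : E n) (τ : ℝ) (y : WW e) : ℝ :=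
  lev (lo K e y) (hi K e y) (kap K e v τ y)

theorem kap_meas (hK : IsCompact K) (he : ‖e‖ = 1) (v : E n) (τ : ℝ) :
    Measurable (kap K e v τ) := by
  have h1 := hi_meas (K := K) hK he
  have h2 := lo_meas (K := K) hK he
  have h3 : Measurable (fun y : WW e => (inner ℝ v (y : E n) : ℝ)) :=
    (continuous_const.inner continuous_subtype_val).measurable
  unfold kap
  fun_prop

theorem aa_meas (hK : IsCompact K) (he : ‖e‖ = 1) (v : E n) (τ : ℝ) :
    Measurable (aa K e v τ) := by
  have h1 := hi_meas (K := K) hK he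
  have h2 := lo_meas (K := K) hK he
  have h3 := kap_meas (K := K) hK he v τ
  unfold aa lev
  exact measurable_const.max ((h1.sub h2).min (h1.sub h3))

theorem beta_pos (α : ℝ) : 0 < √(1 + α ^ 2) := Real.sqrt_pos.2 (by positivity)

theorem beta_sq (α : ℝ) : √(1 + α ^ 2) ^ 2 = 1 + α ^ 2 := Real.sq_sqrt (by positivity)

theorem abs_lt_beta (α : ℝ) : |α| < √(1 + α ^ 2) := by
  apply Real.lt_sqrt_of_sq_lt
  rw [sq_abs]
  linarith

theorem fib_val (hT : HT1) (hK : IsCompact K) (he : ‖e‖ = 1) (v : E n) (τ : ℝ) (y : WW e) :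
    ∫ s in (lo K e y)..(hi K e y), jj (√(pw K e (sl e (y, s)))) (τ - inner ℝ v (sl e (y, s))) =
      (√(1 + (inner ℝ v e) ^ 2) + inner ℝ v e) / 2 *
        (aa K e v τ y * hi K e y - aa K e v τ y ^ 2 / 2) -
      (√(1 + (inner ℝ v e) ^ 2) - inner ℝ v e) / 2 *
        (aa K e v τ y * lo K e y + aa K e v τ y ^ 2 / 2) -
      τ * aa K e v τ y + aa K e v τ y * inner ℝ v (y : E n) := by
  set α : ℝ := inner ℝ v e with hα
  set β : ℝ := √(1 + α ^ 2) with hβ
  have hβ0 : 0 < β := beta_pos α
  have e1 : ∀ s : ℝ, jj (√(pw K e (sl e (y, s)))) (τ - inner ℝ v (sl e (y, s))) =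
      jj (√((hi K e y - s) * (s - lo K e y))) ((τ - inner ℝ v (y : E n)) - α * s) := by
    intro s
    rw [pw_sl he]
    congr 1
    show τ - inner ℝ v (s • e + (y : E n)) = _
    rw [inner_add_right, inner_smul_right, ← hα]
    ring
  simp only [e1]
  rw [T1_fib hT (lo_le_hi hK he y)]
  have e2 : ∀ s : ℝ, max (√(1 + α ^ 2) * (s - (lo K e y + hi K e y) / 2) +
      α * ((lo K e y + hi K e y) / 2) - (τ - inner ℝ v (y : E n))) 0 =
      max (β * (s - kap K e v τ y)) 0 := by
    intro s
    congr 1
    unfold kap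
    rw [← hα, ← hβ]
    field_simp
    ring
  simp only [e2]
  rw [lev_int (lo_le_hi hK he y) hβ0]
  have e3 : β * kap K e v τ y = β * ((lo K e y + hi K e y) / 2) + (τ - inner ℝ v (y : E n) -
    α * ((lo K e y + hi K e y) / 2)) := by
    unfold kap
    rw [← hα, ← hβ]
    field_simp
  have e4 : β * (lev (lo K e y) (hi K e y) (kap K e v τ y) * hi K e y -
      lev (lo K e y) (hi K e y) (kap K e v τ y) ^ 2 / 2 -
      lev (lo K e y) (hi K e y) (kap K e v τ y) * kap K e v τ y) =
      β * (aa K e v τ y * hi K e y - aa K e v τ y ^ 2 / 2) -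
        aa K e v τ y * (β * kap K e v τ y) := by
    unfold aa
    ring
  rw [e4, e3]
  ring

theorem aa_bd (hK : IsCompact K) (he : ‖e‖ = 1) {R : ℝ} (hR : ∀ x ∈ K, ‖x‖ ≤ R) (v : E n) (τ : ℝ)
    {y : WW e} (hy : y ∈ PR K e) : |aa K e v τ y| ≤ 2 * R := by
  have h1 := lev_le (lo_le_hi hK he y) (kap K e v τ y)
  have h4 := abs_le.1 (hi_bd hK he hR hy)
  have h5 := abs_le.1 (lo_bd hK he hR hy)
  unfold aa
  rw [abs_of_nonneg (lev_nonneg _ _ _)]
  linarith

/-- Existence of the level. -/
theorem exists_level (hK : IsCompact K) (hc : Convex ℝ K) (he : ‖e‖ = 1) {δ : ℝ} (hδ0 : 0 < δ)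
    (hδ : δ < (volume K).toReal) (v : E n) :
    ∃ τ : ℝ, ∫ y in PR K e, aa K e v τ y = δ := by
  obtain ⟨R, hR⟩ := hK.isBounded.exists_norm_le
  have hPm := (PR_compact (K := K) hK he).measurableSet
  set α : ℝ := inner ℝ v e with hα
  set β : ℝ := √(1 + α ^ 2) with hβ
  have hβ0 : 0 < β := beta_pos α
  have hcont : Continuous (fun τ : ℝ => ∫ y in PR K e, aa K e v τ y) := by
    apply continuous_of_dominated (bound := fun _ => 2 * R)
    · intro τ
      exact (aa_meas hK he v τ).aestronglyMeasurable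
    · intro τ
      refine (ae_restrict_iff' hPm).2 (Eventually.of_forall ?_)
      intro y hy
      exact aa_bd hK he hR v τ hy
    · exact integrableOn_const (PR_fin hK he)
    · refine Eventually.of_forall ?_
      intro y
      unfold aa lev kap
      fun_prop
  set T : ℝ := ‖v‖ * R + |α| * R + β * (2 * R) with hTdef
  have hbd : ∀ y ∈ PR K e, |(inner ℝ v (y : E n) : ℝ)| ≤ ‖v‖ * R ∧
      |α * ((lo K e y + hi K e y) / 2)| ≤ |α| * R := by
    intro y hy
    constructor
    · refine (abs_real_inner_le_norm v (y : E n)).trans ?_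
      exact mul_le_mul_of_nonneg_left (y_bd he hR hy) (norm_nonneg v)
    · rw [abs_mul]
      apply mul_le_mul_of_nonneg_left _ (abs_nonneg _)
      have h4 := abs_le.1 (hi_bd hK he hR hy)
      have h5 := abs_le.1 (lo_bd hK he hR hy)
      rw [abs_le]
      constructor <;> linarith
  have hup : ∫ y in PR K e, aa K e v T y = 0 := by
    rw [← integral_zero (WW e) ℝ (μ := volume.restrict (PR K e))]
    apply setIntegral_congr_fun hPm
    intro y hy
    show aa K e v T y = 0
    have h4 := abs_le.1 (hi_bd hK he hR hy)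
    have h5 := abs_le.1 (lo_bd hK he hR hy)
    have h6 := hbd y hy
    have h7 := abs_le.1 h6.1
    have h8 := abs_le.1 h6.2
    have h9 : hi K e y ≤ kap K e v T y := by
      unfold kap
      rw [← hα, ← hβ]
      have h10 : (hi K e y - (lo K e y + hi K e y) / 2) ≤ (T - inner ℝ v (y : E n) -
          α * ((lo K e y + hi K e y) / 2)) / β := by
        rw [le_div_iff₀ hβ0]
        have h11 : (hi K e y - (lo K e y + hi K e y) / 2) * β ≤ 2 * R * β :=
          mul_le_mul_of_nonneg_right (by linarith) hβ0.le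
        linarith
      linarith
    unfold aa lev
    exact max_eq_left ((min_le_right _ _).trans (by linarith))
  have hdn : ∫ y in PR K e, aa K e v (-T) y = (volume K).toReal := by
    have h1 := fub hK hc he (φ := fun _ => (1 : ℝ)) (integrableOn_const hK.measure_lt_top.ne)
    simp only [integral_const, MeasurableSet.univ, measureReal_restrict_apply, univ_inter,
      smul_eq_mul, mul_one, intervalIntegral.integral_const] at h1
    rw [show (volume K).toReal = volume.real K from rfl, h1]
    apply setIntegral_congr_fun hPm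
    intro y hy
    show aa K e v (-T) y = hi K e y - lo K e y
    have h4 := abs_le.1 (hi_bd hK he hR hy)
    have h5 := abs_le.1 (lo_bd hK he hR hy)
    have h6 := hbd y hy
    have h7 := abs_le.1 h6.1
    have h8 := abs_le.1 h6.2
    have h9 : kap K e v (-T) y ≤ lo K e y := by
      unfold kap
      rw [← hα, ← hβ]
      have h10 : (-T - inner ℝ v (y : E n) -
          α * ((lo K e y + hi K e y) / 2)) / β ≤ (lo K e y - (lo K e y + hi K e y) / 2) := by
        rw [div_le_iff₀ hβ0]
        have h11 : -(2 * R) * β ≤ (lo K e y - (lo K e y + hi K e y) / 2) * β :=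
          mul_le_mul_of_nonneg_right (by linarith) hβ0.le
        linarith
      linarith
    unfold aa lev
    rw [min_eq_left (by linarith), max_eq_right (by linarith [lo_le_hi (K := K) hK he y])]
  have h1 := mem_range_of_exists_le_of_exists_ge hcont (c := δ) ⟨T, by rw [hup]; exact hδ0.le⟩
    ⟨-T, by rw [hdn]; exact hδ.le⟩
  exact h1

/-- Step 1: the square root of the power function is a supersolution. -/
theorem super (hT : HT1) (hK : IsCompact K) (hc : Convex ℝ K) (he : ‖e‖ = 1) {δ lam : ℝ}
    (hδ0 : 0 < δ) (hδ : δ < (volume K).toReal) (hl : 0 < lam) (hS : HS1 K δ lam) (v : E n) :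
    ∃ τ : ℝ, ∃ y ∈ K, (∫ x in K, jj (√(pw K e x)) (τ - inner ℝ v x)) + δ * τ ≤
      lam * (inner ℝ v y + √(pw K e y)) := by
  obtain ⟨R, hR⟩ := hK.isBounded.exists_norm_le
  have hPm := (PR_compact (K := K) hK he).measurableSet
  obtain ⟨τ, hτ⟩ := exists_level hK hc he hδ0 hδ v
  obtain ⟨p, hp, h1, h2, h3⟩ := core hK hc he hl hS (aa_meas hK he v τ)
    (fun y => lev_nonneg _ _ _) (fun y => lev_le (lo_le_hi hK he y) _) hτ
  set α : ℝ := inner ℝ v e with hα
  set β : ℝ := √(1 + α ^ 2) with hβ
  have hβ0 : 0 < β := beta_pos α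
  have hβ2 : β ^ 2 = 1 + α ^ 2 := beta_sq α
  have hab := abs_lt.1 (abs_lt_beta α)
  rw [← hβ] at hab
  have hhm := hi_meas (K := K) hK he
  have hlm := lo_meas (K := K) hK he
  have ham := aa_meas (K := K) hK he v τ
  have hRR : ∀ y ∈ PR K e, 0 ≤ R := fun y hy => (abs_nonneg _).trans (hi_bd hK he hR hy)
  -- integrability
  have i0 : IntegrableOn (aa K e v τ) (PR K e) :=
    bd_int hK he ham.stronglyMeasurable (C := 2 * R) (fun y hy => aa_bd hK he hR v τ hy)
  have ib : ∀ y ∈ PR K e, |aa K e v τ y| ≤ 2 * R ∧ |hi K e y| ≤ R ∧ |lo K e y| ≤ R :=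
    fun y hy => ⟨aa_bd hK he hR v τ hy, hi_bd hK he hR hy, lo_bd hK he hR hy⟩
  have i1 : IntegrableOn (fun y => aa K e v τ y * hi K e y - aa K e v τ y ^ 2 / 2) (PR K e) := by
    apply bd_int hK he ((ham.mul hhm).sub ((ham.pow_const 2).div_const 2)).stronglyMeasurable
      (C := 2 * R * R + (2 * R) ^ 2 / 2)
    intro y hy
    obtain ⟨b1, b2, _⟩ := ib y hy
    show |aa K e v τ y * hi K e y - aa K e v τ y ^ 2 / 2| ≤ _
    refine (abs_sub _ _).trans ?_
    apply add_le_add
    · rw [abs_mul]
      exact mul_le_mul b1 b2 (abs_nonneg _) (by linarith [hRR y hy])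
    · rw [abs_div, abs_pow, abs_of_pos (show (0:ℝ) < 2 by norm_num)]
      have := pow_le_pow_left₀ (abs_nonneg _) b1 2
      linarith
  have i2 : IntegrableOn (fun y => aa K e v τ y * lo K e y + aa K e v τ y ^ 2 / 2) (PR K e) := by
    apply bd_int hK he ((ham.mul hlm).add ((ham.pow_const 2).div_const 2)).stronglyMeasurable
      (C := 2 * R * R + (2 * R) ^ 2 / 2)
    intro y hy
    obtain ⟨b1, _, b2⟩ := ib y hy
    show |aa K e v τ y * lo K e y + aa K e v τ y ^ 2 / 2| ≤ _
    refine (abs_add_le _ _).trans ?_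
    apply add_le_add
    · rw [abs_mul]
      exact mul_le_mul b1 b2 (abs_nonneg _) (by linarith [hRR y hy])
    · rw [abs_div, abs_pow, abs_of_pos (show (0:ℝ) < 2 by norm_num)]
      have := pow_le_pow_left₀ (abs_nonneg _) b1 2
      linarith
  have i3 : IntegrableOn (fun y : WW e => aa K e v τ y • y) (PR K e) := by
    apply bd_int hK he (ham.smul measurable_id).stronglyMeasurable (C := 2 * R * R)
    intro y hy
    show ‖aa K e v τ y • y‖ ≤ _
    rw [norm_smul]
    exact mul_le_mul (aa_bd hK he hR v τ hy) (y_bd he hR hy) (norm_nonneg _)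
      (by linarith [hRR y hy])
  set L : WW e →L[ℝ] ℝ := (innerSL ℝ v).comp (WW e).subtypeL with hL
  have hLy : ∀ y : WW e, L y = inner ℝ v (y : E n) := fun y => rfl
  have i4 : IntegrableOn (fun y : WW e => aa K e v τ y * inner ℝ v (y : E n)) (PR K e) := by
    have := L.integrable_comp i3
    refine this.congr (Eventually.of_forall ?_)
    intro y
    show L (aa K e v τ y • y) = _
    rw [map_smul, hLy]
    rfl
  have j4 : ∫ y in PR K e, aa K e v τ y * inner ℝ v (y : E n) = lam * inner ℝ v (p : E n) := by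
    have h5 := L.integral_comp_comm i3
    rw [h1, map_smul, hLy] at h5
    rw [← smul_eq_mul, ← h5]
    apply setIntegral_congr_fun hPm
    intro y _
    show _ = L (aa K e v τ y • y)
    rw [map_smul, hLy]
    rfl
  -- the value
  have hval : (∫ x in K, jj (√(pw K e x)) (τ - inner ℝ v x)) + δ * τ =
      (β + α) / 2 * (∫ y in PR K e, (aa K e v τ y * hi K e y - aa K e v τ y ^ 2 / 2)) -
      (β - α) / 2 * (∫ y in PR K e, (aa K e v τ y * lo K e y + aa K e v τ y ^ 2 / 2)) +
      lam * inner ℝ v (p : E n) := by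
    rw [fub hK hc he (jj_intK hK he v τ)]
    have h5 : ∫ y in PR K e, ∫ s in (lo K e y)..(hi K e y),
        jj (√(pw K e (sl e (y, s)))) (τ - inner ℝ v (sl e (y, s))) =
        ∫ y in PR K e, ((β + α) / 2 * (aa K e v τ y * hi K e y - aa K e v τ y ^ 2 / 2) -
          (β - α) / 2 * (aa K e v τ y * lo K e y + aa K e v τ y ^ 2 / 2) -
          τ * aa K e v τ y + aa K e v τ y * inner ℝ v (y : E n)) := by
      apply setIntegral_congr_fun hPm
      intro y _
      exact fib_val hT hK he v τ y
    have k1 : IntegrableOn (fun y => (β + α) / 2 *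
        (aa K e v τ y * hi K e y - aa K e v τ y ^ 2 / 2)) (PR K e) := i1.const_mul _
    have k2 : IntegrableOn (fun y => (β - α) / 2 *
        (aa K e v τ y * lo K e y + aa K e v τ y ^ 2 / 2)) (PR K e) := i2.const_mul _
    have k3 : IntegrableOn (fun y => τ * aa K e v τ y) (PR K e) := i0.const_mul _
    have k12 : IntegrableOn (fun y => (β + α) / 2 *
        (aa K e v τ y * hi K e y - aa K e v τ y ^ 2 / 2) - (β - α) / 2 *
        (aa K e v τ y * lo K e y + aa K e v τ y ^ 2 / 2)) (PR K e) := k1.sub k2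
    have k123 : IntegrableOn (fun y => (β + α) / 2 *
        (aa K e v τ y * hi K e y - aa K e v τ y ^ 2 / 2) - (β - α) / 2 *
        (aa K e v τ y * lo K e y + aa K e v τ y ^ 2 / 2) - τ * aa K e v τ y) (PR K e) :=
      k12.sub k3
    rw [h5, integral_add k123 i4, integral_sub k12 k3, integral_sub k1 k2, integral_const_mul,
      integral_const_mul, integral_const_mul, hτ, j4]
    ring
  -- the point
  set r : ℝ := (hi K e p - lo K e p) / 2 with hr
  set m : ℝ := (lo K e p + hi K e p) / 2 with hm
  have hr0 : 0 ≤ r := by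
    have := lo_le_hi (K := K) hK he p
    rw [hr]
    linarith
  have hq : |α / β| ≤ 1 := by
    rw [abs_div, abs_of_pos hβ0, div_le_one hβ0]
    exact (abs_lt_beta α).le
  have hq' := abs_le.1 hq
  have hs : m + α / β * r ∈ fb K e p := by
    rw [fb_Icc hK hc he hp]
    constructor
    · have : lo K e p = m - r := by rw [hm, hr]; ring
      rw [this]
      nlinarith
    · have : hi K e p = m + r := by rw [hm, hr]; ring
      rw [this]
      nlinarith
  refine ⟨τ, sl e (p, m + α / β * r), hs, ?_⟩
  rw [hval]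
  have e1 : √(pw K e (sl e (p, m + α / β * r))) = r / β := by
    rw [pw_sl he]
    have h6 : (hi K e p - (m + α / β * r)) * (m + α / β * r - lo K e p) = (r / β) ^ 2 := by
      have h7 : hi K e p = m + r := by rw [hm, hr]; ring
      have h8 : lo K e p = m - r := by rw [hm, hr]; ring
      rw [h7, h8]
      have h9 : (m + r - (m + α / β * r)) * (m + α / β * r - (m - r)) =
          r ^ 2 * (β ^ 2 - α ^ 2) / β ^ 2 := by
        field_simp
        ring
      rw [h9, show β ^ 2 - α ^ 2 = 1 by rw [hβ2]; ring, mul_one]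
      exact (div_pow r β 2).symm
    rw [h6, Real.sqrt_sq (by positivity)]
  have e2 : (inner ℝ v (sl e (p, m + α / β * r)) : ℝ) =
      (m + α / β * r) * α + inner ℝ v (p : E n) := by
    show inner ℝ v ((m + α / β * r) • e + (p : E n)) = _
    rw [inner_add_right, inner_smul_right]
  rw [e1, e2]
  have e3 : (m + α / β * r) * α + inner ℝ v (p : E n) + r / β =
      (β + α) / 2 * hi K e p - (β - α) / 2 * lo K e p + inner ℝ v (p : E n) := by
    have h7 : hi K e p = m + r := by rw [hm, hr]; ring
    have h8 : lo K e p = m - r := by rw [hm, hr]; ring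
    rw [h7, h8]
    have h9 : α / β * r * α + r / β = β * r := by
      have : α / β * r * α + r / β = r * (1 + α ^ 2) / β := by
        field_simp
        ring
      rw [this, ← hβ2]
      field_simp
    linarith
  rw [e3]
  have g1 := mul_le_mul_of_nonneg_left h2 (show 0 ≤ (β + α) / 2 by linarith)
  have g2 := mul_le_mul_of_nonneg_left h3 (show 0 ≤ (β - α) / 2 by linarith)
  nlinarith

end Pool.Agent.Helper9.FU
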